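import Mathlib

/-!
# The number of neighbours of a dicolouring of an oriented graph
-/

set_option autoImplicit false

namespace Pool.Agent.OPF

open Finset

set_option linter.unusedSectionVars false

variable {V : Type} [Fintype V] [DecidableEq V] {k : ℕ}

/-- the arcs with both ends of the same colour -/
def Mono (D : V → V → Prop) (c : V → Fin k) (a b : V) : Prop := D a b ∧ c a = c b

/-- `c` is a `k`-dicolouring of `D`: no directed cycle has all its vertices of one colour -/
def IsDicolouring (D : V → V → Prop) (c : V → Fin k) : Prop :=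
  ∀ v, ¬ Relation.TransGen (Mono D c) v v

/-- two colourings are adjacent in the dicolouring graph if they differ on exactly one vertex -/
def Differ (c c' : V → Fin k) : Prop := ∃ v, ∀ x, c x ≠ c' x ↔ x = v

/-- a closed walk through `v` gives a path between an out-neighbour and an in-neighbour of `v`
which avoids `v` -/
theorem walk_from {R : V → V → Prop} {v : V} (hR : ¬ R v v) {y : V}
    (h : Relation.TransGen R v y) :
    (∃ u w, u ≠ v ∧ w ≠ v ∧ R v u ∧ R w v ∧
      Relation.ReflTransGen (fun a b => R a b ∧ a ≠ v ∧ b ≠ v) u w) ∨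
    (y ≠ v ∧ ∃ u, u ≠ v ∧ R v u ∧
      Relation.ReflTransGen (fun a b => R a b ∧ a ≠ v ∧ b ≠ v) u y) := by
  induction h with
  | single h =>
    rename_i y
    have hy : y ≠ v := fun e => hR (e ▸ h)
    exact Or.inr ⟨hy, y, hy, h, Relation.ReflTransGen.refl⟩
  | tail h1 h2 ih =>
    rename_i y z
    rcases ih with ih | ⟨hy, u, hu, h3, h4⟩
    · exact Or.inl ih
    · by_cases hz : z = v
      · subst hz
        exact Or.inl ⟨u, y, hu, hy, h3, h2, h4⟩
      · exact Or.inr ⟨hz, u, hu, h3, h4.tail ⟨h2, hy, hz⟩⟩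

theorem walk_avoid {R : V → V → Prop} {v x y : V} (h : Relation.TransGen R x y) :
    Relation.TransGen (fun a b => R a b ∧ a ≠ v ∧ b ≠ v) x y ∨
      (Relation.ReflTransGen R x v ∧ Relation.ReflTransGen R v y) := by
  induction h with
  | single h =>
    rename_i y
    by_cases hx : x = v
    · subst hx
      exact Or.inr ⟨Relation.ReflTransGen.refl, Relation.ReflTransGen.single h⟩
    · by_cases hy : y = v
      · subst hy
        exact Or.inr ⟨Relation.ReflTransGen.single h, Relation.ReflTransGen.refl⟩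
      · exact Or.inl (Relation.TransGen.single ⟨h, hx, hy⟩)
  | tail h1 h2 ih =>
    rename_i y z
    rcases ih with ih | ⟨h3, h4⟩
    · by_cases hz : z = v
      · subst hz
        exact Or.inr ⟨(h1.tail h2).to_reflTransGen, Relation.ReflTransGen.refl⟩
      · by_cases hy : y = v
        · subst hy
          exact Or.inr ⟨h1.to_reflTransGen, Relation.ReflTransGen.single h2⟩
        · exact Or.inl (ih.tail ⟨h2, hy, hz⟩)
    · exact Or.inr ⟨h3, h4.tail h2⟩

/-- the witnesses of a blocked pair `(v, j)` -/
theorem blocked {D : V → V → Prop} (hD : ∀ a b, D a b → ¬ D b a) {c : V → Fin k}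
    (hc : IsDicolouring D c) {v : V} {j : Fin k}
    (hb : ¬ IsDicolouring D (Function.update c v j)) :
    ∃ u w, D v u ∧ D w v ∧ c u = j ∧ c w = j ∧ Relation.ReflTransGen (Mono D c) u w := by
  have hloop : ∀ a, ¬ D a a := fun a h => hD a a h h
  unfold IsDicolouring at hb
  push Not at hb
  obtain ⟨x, hx⟩ := hb
  have hmono : ∀ a b, (Mono D (Function.update c v j) a b ∧ a ≠ v ∧ b ≠ v) → Mono D c a b := by
    rintro a b ⟨⟨h1, h2⟩, h3, h4⟩
    refine ⟨h1, ?_⟩
    rwa [Function.update_of_ne h3, Function.update_of_ne h4] at h2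
  have hvv : Relation.TransGen (Mono D (Function.update c v j)) v v := by
    rcases walk_avoid (v := v) hx with h | ⟨h1, h2⟩
    · exact absurd (Relation.TransGen.mono hmono _ _ h) (hc x)
    · by_cases hxv : x = v
      · rwa [hxv] at hx
      · rcases Relation.reflTransGen_iff_eq_or_transGen.1 h1 with h3 | h3
        · exact absurd h3.symm hxv
        · exact Relation.TransGen.trans_right h2 h3
  rcases walk_from (v := v) (fun h => hloop v h.1) hvv with h | h
  · obtain ⟨u, w, hu, hw, h1, h2, h3⟩ := h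
    refine ⟨u, w, h1.1, h2.1, ?_, ?_, Relation.ReflTransGen.mono hmono _ _ h3⟩
    · have := h1.2
      rw [Function.update_self, Function.update_of_ne hu] at this
      exact this.symm
    · have := h2.2
      rwa [Function.update_self, Function.update_of_ne hw] at this
  · exact absurd rfl h.1

/-- a connected graph given by a finite set of pairs -/
theorem card_le_of_connected (S : Finset (V × V))
    (h : (SimpleGraph.fromRel fun a b => (a, b) ∈ S).Connected) : Fintype.card V ≤ S.card + 1 := by
  have h1 := h.card_vert_le_card_edgeSet_add_one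
  rw [Nat.card_eq_fintype_card] at h1
  refine h1.trans (Nat.add_le_add_right ?_ 1)
  have h2 : (SimpleGraph.fromRel fun a b => (a, b) ∈ S).edgeSet ⊆
      ((S.image fun x => s(x.1, x.2) : Finset (Sym2 V)) : Set (Sym2 V)) := by
    intro e
    induction e using Sym2.ind with
    | _ a b =>
      intro he
      rw [SimpleGraph.mem_edgeSet, SimpleGraph.fromRel_adj] at he
      rw [mem_coe, mem_image]
      rcases he.2 with h3 | h3
      · exact ⟨(a, b), h3, rfl⟩
      · exact ⟨(b, a), h3, Sym2.eq_swap⟩
  rw [Nat.card_coe_set_eq]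
  refine (Set.ncard_le_ncard h2 (Finset.finite_toSet _)).trans ?_
  rw [Set.ncard_coe_finset]
  exact card_image_le

section

variable (D : V → V → Prop) (c : V → Fin k)

/-- the class of a vertex under monochromatic connectivity -/
noncomputable def cl (v : V) : (SimpleGraph.fromRel (Mono D c)).ConnectedComponent :=
  (SimpleGraph.fromRel (Mono D c)).connectedComponentMk v

end

theorem cl_of_mono {D : V → V → Prop} {c : V → Fin k} {a b : V} (h : Mono D c a b) :
    cl D c a = cl D c b := by
  by_cases hab : a = b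
  · rw [hab]
  · apply SimpleGraph.ConnectedComponent.sound
    exact SimpleGraph.Adj.reachable ((SimpleGraph.fromRel_adj _ _ _).2 ⟨hab, Or.inl h⟩)

theorem cl_of_refl {D : V → V → Prop} {c : V → Fin k} {a b : V}
    (h : Relation.ReflTransGen (Mono D c) a b) : cl D c a = cl D c b := by
  induction h with
  | refl => rfl
  | tail _ h2 ih => exact ih.trans (cl_of_mono h2)

theorem col_of_cl {D : V → V → Prop} {c : V → Fin k} {a b : V} (h : cl D c a = cl D c b) :
    c a = c b := by
  have h1 : (SimpleGraph.fromRel (Mono D c)).Reachable a b :=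
    SimpleGraph.ConnectedComponent.exact h
  obtain ⟨p⟩ := h1
  induction p with
  | nil => rfl
  | cons hadj p ih =>
    rename_i u v w
    have h2 : c u = c v := by
      rw [SimpleGraph.fromRel_adj] at hadj
      rcases hadj.2 with h3 | h3
      · exact h3.2
      · exact h3.2.symm
    refine h2.trans (ih ?_)
    apply SimpleGraph.ConnectedComponent.sound
    exact ⟨p⟩

open Classical in
/-- between two adjacent classes there are fewer blocked pairs than arcs -/
theorem pair_count {D : V → V → Prop} (hD : ∀ a b, D a b → ¬ D b a) {c : V → Fin k}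
    (hc : IsDicolouring D c) (B : Finset (V × Fin k)) (u w : V × Fin k → V)
    (hB1 : ∀ z ∈ B, D z.1 (u z)) (hB2 : ∀ z ∈ B, D (w z) z.1)
    (hB3 : ∀ z ∈ B, c (u z) = z.2)
    (hB5 : ∀ z ∈ B, Relation.ReflTransGen (Mono D c) (u z) (w z))
    (hB6 : ∀ z ∈ B, z.2 ≠ c z.1)
    (e : Sym2 (SimpleGraph.fromRel (Mono D c)).ConnectedComponent)
    (he : ∃ a b, D a b ∧ c a ≠ c b ∧ s(cl D c a, cl D c b) = e) :
    (B.filter fun z => s(cl D c z.1, cl D c (u z)) = e).card + 1 ≤
      ((univ : Finset (V × V)).filter fun x => D x.1 x.2 ∧ c x.1 ≠ c x.2 ∧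
        s(cl D c x.1, cl D c x.2) = e).card := by
  set Be := B.filter fun z => s(cl D c z.1, cl D c (u z)) = e with hBe
  set Xe := (univ : Finset (V × V)).filter fun x => D x.1 x.2 ∧ c x.1 ≠ c x.2 ∧
        s(cl D c x.1, cl D c x.2) = e with hXe
  have hmB : ∀ z, z ∈ Be ↔ z ∈ B ∧ s(cl D c z.1, cl D c (u z)) = e := by
    intro z
    rw [hBe, mem_filter]
  have hmX : ∀ a b, (a, b) ∈ Xe ↔ D a b ∧ c a ≠ c b ∧ s(cl D c a, cl D c b) = e := by
    intro a b
    rw [hXe, mem_filter]
    simp
  by_contra hlt
  have hle : Xe.card ≤ Be.card := by omega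
  -- the arcs of a blocked pair
  have hout : ∀ z ∈ Be, (z.1, u z) ∈ Xe := by
    intro z hz
    obtain ⟨h1, h2⟩ := (hmB z).1 hz
    exact (hmX _ _).2 ⟨hB1 z h1, by rw [hB3 z h1]; exact (hB6 z h1).symm, h2⟩
  have hin : ∀ z ∈ Be, (w z, z.1) ∈ Xe := by
    intro z hz
    obtain ⟨h1, h2⟩ := (hmB z).1 hz
    have h3 := cl_of_refl (hB5 z h1)
    refine (hmX _ _).2 ⟨hB2 z h1, ?_, ?_⟩
    · rw [← col_of_cl h3, hB3 z h1]
      exact hB6 z h1
    · rw [← h3, Sym2.eq_swap]
      exact h2
  have hinj : ∀ z ∈ Be, ∀ z' ∈ Be, z.1 = z'.1 → z = z' := by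
    intro z hz z' hz' h1
    obtain ⟨h2, h3⟩ := (hmB z).1 hz
    obtain ⟨h4, h5⟩ := (hmB z').1 hz'
    rw [h1] at h3
    have h6 : cl D c (u z) = cl D c (u z') := Sym2.congr_right.1 (h3.trans h5.symm)
    have h7 := col_of_cl h6
    rw [hB3 z h2, hB3 z' h4] at h7
    exact Prod.ext h1 h7
  have hsurj := Finset.surj_on_of_inj_on_of_card_le
    (s := Be ×ˢ (univ : Finset Bool)) (t := Xe ×ˢ (univ : Finset Bool))
    (fun y _ => if y.2 then ((w y.1, y.1.1), true) else ((y.1.1, u y.1), false))
    (by
      rintro ⟨z, b⟩ hy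
      rw [mem_product] at hy
      cases b
      · simpa using hout z hy.1
      · simpa using hin z hy.1)
    (by
      rintro ⟨z, b⟩ ⟨z', b'⟩ hy hy' h
      rw [mem_product] at hy hy'
      cases b <;> cases b' <;> simp only [if_true, if_false, Prod.mk.injEq, Bool.false_eq_true,
        reduceCtorEq, and_true, and_false] at h
      · rw [hinj z hy.1 z' hy'.1 h.1]
      · rw [hinj z hy.1 z' hy'.1 h.2])
    (by
      rw [card_product, card_product]
      exact Nat.mul_le_mul_right _ hle)
  have hhead : ∀ a b, (a, b) ∈ Xe → ∃ z ∈ Be, z.1 = b ∧ w z = a := by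
    intro a b hab
    obtain ⟨⟨z, b'⟩, hz, h⟩ := hsurj ((a, b), true) (by rw [mem_product]; exact ⟨hab, mem_univ _⟩)
    rw [mem_product] at hz
    cases b'
    · simp at h
    · simp only [if_true, Prod.mk.injEq, and_true] at h
      exact ⟨z, hz.1, h.2.symm, h.1.symm⟩
  -- a minimal tail
  obtain ⟨a0, b0, h0, h0', h0''⟩ := he
  have hwf : WellFounded (Relation.TransGen (Mono D c)) := by
    have : IsTrans V (Relation.TransGen (Mono D c)) := ⟨fun _ _ _ => Relation.TransGen.trans⟩
    have : Std.Irrefl (Relation.TransGen (Mono D c)) := ⟨hc⟩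
    exact Finite.wellFounded_of_trans_of_irrefl _
  obtain ⟨a, ⟨b, hab, hcl⟩, hmin⟩ := hwf.has_min
    {a : V | ∃ b, (a, b) ∈ Xe ∧ cl D c a = cl D c a0}
    ⟨a0, b0, (hmX _ _).2 ⟨h0, h0', h0''⟩, rfl⟩
  obtain ⟨z, hz, hzb, hza⟩ := hhead a b hab
  have hzB := ((hmB z).1 hz).1
  have h1 : (b, u z) ∈ Xe := by
    have := hout z hz
    rwa [hzb] at this
  have h2 : Relation.ReflTransGen (Mono D c) (u z) a := by
    have := hB5 z hzB
    rwa [hza] at this
  have h3 : u z ≠ a := by
    intro h
    have h4 := ((hmX _ _).1 h1).1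
    rw [h] at h4
    exact hD _ _ ((hmX _ _).1 hab).1 h4
  have h4 : Relation.TransGen (Mono D c) (u z) a := by
    rcases Relation.reflTransGen_iff_eq_or_transGen.1 h2 with h | h
    · exact absurd h.symm h3
    · exact h
  obtain ⟨z', hz', hz'b, _⟩ := hhead b (u z) h1
  refine hmin (u z) ⟨u z', ?_, (cl_of_refl h2).trans hcl⟩ h4
  have := hout z' hz'
  rwa [hz'b] at this

/-- the set of arcs -/
def arcs (D : V → V → Prop) : Set (V × V) := {x | D x.1 x.2}

/-- the neighbours of a dicolouring in the dicolouring graph -/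
def nbrs (D : V → V → Prop) (c : V → Fin k) : Set (V → Fin k) :=
  {c' | IsDicolouring D c' ∧ Differ c c'}

open Classical in
/-- every `k`-dicolouring has at least `k n - m - κ` neighbours -/
theorem degree_bound {D : V → V → Prop} (hD : ∀ a b, D a b → ¬ D b a) {c : V → Fin k}
    (hc : IsDicolouring D c) :
    k * Fintype.card V ≤ (nbrs D c).ncard + (arcs D).ncard +
      Nat.card (SimpleGraph.fromRel D).ConnectedComponent := by
  rcases isEmpty_or_nonempty V with hV | ⟨⟨r⟩⟩
  · rw [Fintype.card_eq_zero, mul_zero]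
    exact Nat.zero_le _
  -- blocked pairs
  obtain ⟨B, hB⟩ : ∃ B : Finset (V × Fin k), ∀ z, z ∈ B ↔ z.2 ≠ c z.1 ∧
      ¬ IsDicolouring D (Function.update c z.1 z.2) :=
    ⟨univ.filter fun z => z.2 ≠ c z.1 ∧ ¬ IsDicolouring D (Function.update c z.1 z.2),
      fun z => by simp⟩
  obtain ⟨U, hU⟩ : ∃ U : Finset (V × Fin k), ∀ z, z ∈ U ↔ z.2 ≠ c z.1 ∧
      IsDicolouring D (Function.update c z.1 z.2) :=
    ⟨univ.filter fun z => z.2 ≠ c z.1 ∧ IsDicolouring D (Function.update c z.1 z.2),
      fun z => by simp⟩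
  have hUB : U.card + B.card + Fintype.card V = k * Fintype.card V := by
    have h1 : (univ.image fun v : V => (v, c v)).card = Fintype.card V := by
      rw [card_image_of_injective _ fun a b h => (Prod.mk.inj h).1, card_univ]
    have h2 : U ∪ B ∪ (univ.image fun v : V => (v, c v)) = univ := by
      ext z
      rw [mem_union, mem_union, hU, hB, mem_image]
      refine ⟨fun _ => mem_univ _, fun _ => ?_⟩
      by_cases h3 : z.2 = c z.1
      · exact Or.inr ⟨z.1, mem_univ _, by rw [← h3]⟩
      · by_cases h4 : IsDicolouring D (Function.update c z.1 z.2)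
        · exact Or.inl (Or.inl ⟨h3, h4⟩)
        · exact Or.inl (Or.inr ⟨h3, h4⟩)
    have h3 : Disjoint U B := by
      rw [disjoint_left]
      intro z hz hz'
      exact ((hB z).1 hz').2 ((hU z).1 hz).2
    have h4 : Disjoint (U ∪ B) (univ.image fun v : V => (v, c v)) := by
      rw [disjoint_left]
      intro z hz hz'
      rw [mem_image] at hz'
      obtain ⟨v, _, rfl⟩ := hz'
      rw [mem_union, hU, hB] at hz
      rcases hz with hz | hz
      · exact hz.1 rfl
      · exact hz.1 rfl
    have h5 := congrArg Finset.card h2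
    rw [card_union_of_disjoint h4, card_union_of_disjoint h3, h1, card_univ, Fintype.card_prod,
      Fintype.card_fin] at h5
    rw [h5, mul_comm]
  -- unblocked pairs are neighbours
  have hUn : U.card ≤ (nbrs D c).ncard := by
    have h1 : (U : Set (V × Fin k)).ncard ≤ (nbrs D c).ncard := by
      apply Set.ncard_le_ncard_of_injOn (fun z : V × Fin k => Function.update c z.1 z.2)
      · intro z hz
        rw [mem_coe, hU] at hz
        refine ⟨hz.2, z.1, fun x => ?_⟩
        by_cases hx : x = z.1
        · subst hx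
          rw [Function.update_self]
          exact ⟨fun _ => rfl, fun _ => hz.1.symm⟩
        · rw [Function.update_of_ne hx]
          exact ⟨fun h => absurd rfl h, fun h => absurd h hx⟩
      · intro z hz z' hz' h
        rw [mem_coe, hU] at hz hz'
        simp only at h
        have h1 : z.1 = z'.1 := by
          by_contra h2
          have h3 := congrFun h z.1
          rw [Function.update_self, Function.update_of_ne h2] at h3
          exact hz.1 h3
        have h4 := congrFun h z.1
        rw [Function.update_self, h1, Function.update_self] at h4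
        exact Prod.ext h1 h4
    rwa [Set.ncard_coe_finset] at h1
  -- witnesses
  have hwit : ∀ z : V × Fin k, ∃ u w : V, z ∈ B → D z.1 u ∧ D w z.1 ∧ c u = z.2 ∧ c w = z.2 ∧
      Relation.ReflTransGen (Mono D c) u w := by
    intro z
    by_cases hz : z ∈ B
    · obtain ⟨u, w, h⟩ := blocked hD hc ((hB z).1 hz).2
      exact ⟨u, w, fun _ => h⟩
    · exact ⟨r, r, fun h => absurd h hz⟩
  choose u w huw using hwit
  -- arcs
  obtain ⟨A, hA⟩ : ∃ A : Finset (V × V), ∀ x, x ∈ A ↔ D x.1 x.2 :=
    ⟨univ.filter fun x => D x.1 x.2, fun x => by simp⟩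
  obtain ⟨X, hX⟩ : ∃ X : Finset (V × V), X = A.filter fun x => c x.1 ≠ c x.2 := ⟨_, rfl⟩
  obtain ⟨Y, hY⟩ : ∃ Y : Finset (V × V), Y = A.filter fun x => ¬ c x.1 ≠ c x.2 := ⟨_, rfl⟩
  have hXY : X.card + Y.card = A.card := by
    rw [hX, hY]
    exact Finset.card_filter_add_card_filter_not _
  have hAn : A.card = (arcs D).ncard := by
    rw [← Set.ncard_coe_finset]
    congr 1
    ext x
    rw [mem_coe, hA]
    rfl
  obtain ⟨I, hI⟩ : ∃ I, I = X.image fun x => s(cl D c x.1, cl D c x.2) := ⟨_, rfl⟩
  have hmI : ∀ e, e ∈ I ↔ ∃ a b, D a b ∧ c a ≠ c b ∧ s(cl D c a, cl D c b) = e := by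
    intro e
    rw [hI, mem_image]
    constructor
    · rintro ⟨⟨a, b⟩, h1, h2⟩
      rw [hX, mem_filter, hA] at h1
      exact ⟨a, b, h1.1, h1.2, h2⟩
    · rintro ⟨a, b, h1, h2, h3⟩
      refine ⟨(a, b), ?_, h3⟩
      rw [hX, mem_filter, hA]
      exact ⟨h1, h2⟩
  have hBI : B.card + I.card ≤ X.card := by
    have h1 : B.card = ∑ e ∈ I, (B.filter fun z => s(cl D c z.1, cl D c (u z)) = e).card := by
      apply Finset.card_eq_sum_card_fiberwise
      intro z hz
      rw [mem_coe] at hz ⊢
      have h2 := huw z hz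
      refine (hmI _).2 ⟨z.1, u z, h2.1, ?_, rfl⟩
      rw [h2.2.2.1]
      exact ((hB z).1 hz).1.symm
    have h2 : X.card = ∑ e ∈ I, (X.filter fun x => s(cl D c x.1, cl D c x.2) = e).card := by
      apply Finset.card_eq_sum_card_fiberwise
      intro x hx
      rw [mem_coe] at hx ⊢
      rw [hI]
      exact mem_image_of_mem _ hx
    have h3 : I.card = ∑ e ∈ I, 1 := by rw [sum_const, smul_eq_mul, mul_one]
    rw [h1, h2, h3, ← sum_add_distrib]
    apply Finset.sum_le_sum
    intro e he
    have h4 := pair_count hD hc B u w (fun z hz => (huw z hz).1) (fun z hz => (huw z hz).2.1)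
      (fun z hz => (huw z hz).2.2.1) (fun z hz => (huw z hz).2.2.2.2)
      (fun z hz => ((hB z).1 hz).1) e ((hmI e).1 he)
    refine h4.trans (card_le_card ?_)
    intro x hx
    rw [mem_filter] at hx ⊢
    refine ⟨?_, hx.2.2.2⟩
    rw [hX, mem_filter, hA]
    exact ⟨hx.2.1, hx.2.2.1⟩
  -- a connected spanning graph
  obtain ⟨rep, hrep⟩ : ∃ rep : Sym2 (SimpleGraph.fromRel (Mono D c)).ConnectedComponent → V × V,
      ∀ e ∈ I, D (rep e).1 (rep e).2 ∧ s(cl D c (rep e).1, cl D c (rep e).2) = e := by
    refine ⟨fun e => if h : e ∈ I then (((hmI e).1 h).choose, ((hmI e).1 h).choose_spec.choose)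
      else (r, r), fun e he => ?_⟩
    have := ((hmI e).1 he).choose_spec.choose_spec
    simp only [dif_pos he]
    exact ⟨this.1, this.2.2⟩
  let G := SimpleGraph.fromRel D
  let C0 := G.connectedComponentMk r
  obtain ⟨out, hout⟩ : ∃ out : G.ConnectedComponent → V, ∀ K, G.connectedComponentMk (out K) = K :=
    ⟨fun K => Quot.out K, fun K => Quot.out_eq K⟩
  obtain ⟨S, hS⟩ : ∃ S : Finset (V × V), S = (Y ∪ I.image rep) ∪
      ((univ : Finset G.ConnectedComponent).erase C0).image (fun K => (r, out K)) := ⟨_, rfl⟩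
  have hSc : S.card ≤ Y.card + I.card + (Fintype.card G.ConnectedComponent - 1) := by
    rw [hS]
    refine (card_union_le _ _).trans (Nat.add_le_add ((card_union_le _ _).trans
      (Nat.add_le_add_left card_image_le _)) (card_image_le.trans ?_))
    rw [card_erase_of_mem (mem_univ _), card_univ]
  have hκ : 0 < Fintype.card G.ConnectedComponent := Fintype.card_pos_iff.2 ⟨C0⟩
  obtain ⟨G3, hG3⟩ : ∃ G3, G3 = SimpleGraph.fromRel fun a b => (a, b) ∈ S := ⟨_, rfl⟩
  have hadj : ∀ a b, (a, b) ∈ S → G3.Reachable a b := by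
    intro a b h
    by_cases hab : a = b
    · rw [hab]
    · apply SimpleGraph.Adj.reachable
      rw [hG3, SimpleGraph.fromRel_adj]
      exact ⟨hab, Or.inl h⟩
  have hmono : ∀ a b, Mono D c a b → G3.Reachable a b := by
    intro a b h
    apply hadj
    rw [hS, mem_union, mem_union, hY, mem_filter, hA]
    exact Or.inl (Or.inl ⟨h.1, fun h2 => h2 h.2⟩)
  have hclr : ∀ a b, cl D c a = cl D c b → G3.Reachable a b := by
    intro a b h
    have h1 : (SimpleGraph.fromRel (Mono D c)).Reachable a b :=
      SimpleGraph.ConnectedComponent.exact h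
    obtain ⟨p⟩ := h1
    clear h
    induction p with
    | nil => rfl
    | cons hadj' p ih =>
      rename_i x y z
      rw [SimpleGraph.fromRel_adj] at hadj'
      rcases hadj'.2 with h3 | h3
      · exact (hmono _ _ h3).trans ih
      · exact (hmono _ _ h3).symm.trans ih
  have hDr : ∀ a b, D a b → G3.Reachable a b := by
    intro a b h
    by_cases hcol : c a = c b
    · exact hmono a b ⟨h, hcol⟩
    · have he : s(cl D c a, cl D c b) ∈ I := (hmI _).2 ⟨a, b, h, hcol, rfl⟩
      obtain ⟨h1, h2⟩ := hrep _ he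
      have h3 : G3.Reachable (rep s(cl D c a, cl D c b)).1 (rep s(cl D c a, cl D c b)).2 := by
        apply hadj
        rw [hS, mem_union, mem_union]
        exact Or.inl (Or.inr (mem_image_of_mem _ he))
      rcases Sym2.eq_iff.1 h2 with ⟨h4, h5⟩ | ⟨h4, h5⟩
      · exact ((hclr _ _ h4).symm.trans h3).trans (hclr _ _ h5)
      · exact ((hclr _ _ h5).symm.trans h3.symm).trans (hclr _ _ h4)
  have hGr : ∀ a b, G.Reachable a b → G3.Reachable a b := by
    rintro a b ⟨p⟩
    induction p with
    | nil => rfl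
    | cons hadj' p ih =>
      rename_i x y z
      rw [SimpleGraph.fromRel_adj] at hadj'
      rcases hadj'.2 with h3 | h3
      · exact (hDr _ _ h3).trans ih
      · exact (hDr _ _ h3).symm.trans ih
  have hroot : ∀ v, G3.Reachable r v := by
    intro v
    by_cases h : G.connectedComponentMk v = C0
    · exact hGr _ _ (SimpleGraph.ConnectedComponent.exact h).symm
    · have h1 : G3.Reachable r (out (G.connectedComponentMk v)) := by
        apply hadj
        rw [hS, mem_union]
        refine Or.inr (mem_image.2 ⟨G.connectedComponentMk v, ?_, rfl⟩)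
        rw [mem_erase]
        exact ⟨h, mem_univ _⟩
      exact h1.trans (hGr _ _ (SimpleGraph.ConnectedComponent.exact (hout _)))
  have hconn : G3.Connected := by
    rw [SimpleGraph.connected_iff]
    exact ⟨fun a b => (hroot a).symm.trans (hroot b), ⟨r⟩⟩
  rw [hG3] at hconn
  have h1 := card_le_of_connected S hconn
  have h2 : Nat.card (SimpleGraph.fromRel D).ConnectedComponent =
      Fintype.card G.ConnectedComponent := Nat.card_eq_fintype_card
  rw [h2, ← hAn]
  omega

end Pool.Agent.OPF
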